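import Pool.Agent.helper95.FI.SpecT

/-!
# MP_ad8ced_nt, row fi:COP: the triples for which a prime divides both coordinates
-/

set_option autoImplicit false

open Finset

noncomputable section

namespace Pool.Agent.FI

/-- Integers in `[-m, m]` in one residue class. -/
theorem COP_cls (T : Finset ℤ) (g m : ℕ) (hg : 0 < g) (h1 : ∀ a ∈ T, |a| ≤ m)
    (h2 : ∀ a ∈ T, ∀ b ∈ T, (g : ℤ) ∣ a - b) : #T ≤ 2 * m / g + 1 := by
  have hg' : (0 : ℤ) < g := by exact_mod_cast hg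
  rw [← Finset.card_range (2 * m / g + 1)]
  refine Finset.card_le_card_of_injOn (fun a => ((a + m) / g).toNat) ?_ ?_
  · intro a ha
    have h3 := abs_le.1 (h1 a ha)
    rw [Finset.coe_range, Set.mem_Iio]
    have h4 : (a + m) / (g : ℤ) ≤ (2 * m) / (g : ℤ) := Int.ediv_le_ediv hg' (by linarith)
    have h5 : (0 : ℤ) ≤ (a + m) / (g : ℤ) := Int.ediv_nonneg (by linarith) hg'.le
    have h6 : (((2 * m / g : ℕ)) : ℤ) = (2 * m) / (g : ℤ) := by push_cast; rfl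
    show ((a + m) / (g : ℤ)).toNat < 2 * m / g + 1
    omega
  · intro a ha b hb hab
    have ha' := abs_le.1 (h1 a ha)
    have hb' := abs_le.1 (h1 b hb)
    have h3 : ((a + m) / (g : ℤ)).toNat = ((b + m) / (g : ℤ)).toNat := hab
    have h5 : (0 : ℤ) ≤ (a + m) / (g : ℤ) := Int.ediv_nonneg (by linarith) hg'.le
    have h6 : (0 : ℤ) ≤ (b + m) / (g : ℤ) := Int.ediv_nonneg (by linarith) hg'.le
    have h7 : (a + m) / (g : ℤ) = (b + m) / (g : ℤ) := by omega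
    have h8 : (a + m) % (g : ℤ) = (b + m) % (g : ℤ) := by
      have h9 : (g : ℤ) ∣ (a + m) - (b + m) := by
        have := h2 a ha b hb
        have h10 : (a + m) - (b + m) = a - b := by ring
        rw [h10]
        exact this
      exact Int.emod_eq_emod_iff_emod_sub_eq_zero.2 (Int.emod_eq_zero_of_dvd h9)
    have h9 := Int.emod_add_mul_ediv (a + m) g
    have h10 := Int.emod_add_mul_ediv (b + m) g
    rw [h7, h8] at h9
    linarith

/-- The elements of `ZD N` have small coordinates. -/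
theorem COP_zd (hFFC : FFC_stmt) (N : ℕ) : ((ZD N).card : ℝ) ≤ 50 * N ∧
    ∀ z ∈ ZD N, |z.1| ≤ (Nat.sqrt (4 * N) : ℤ) ∧ |z.2| ≤ (Nat.sqrt (4 * N) : ℤ) := by
  obtain ⟨h1, h2⟩ := hFFC (2 * N)
  constructor
  · have h3 : ((ZD N).card : ℝ) ≤ ((FF (2 * N)).card : ℝ) := by
      exact_mod_cast Finset.card_le_card (Finset.filter_subset _ _)
    refine h3.trans (h1.trans ?_)
    push_cast
    linarith
  · intro z hz
    have hz' : z ∈ FF (2 * N) := (Finset.mem_filter.1 hz).1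
    obtain ⟨h3, h4⟩ := h2 z hz'
    push_cast at h3 h4
    have key : ∀ a : ℤ, a ^ 2 ≤ 4 * (N : ℤ) → |a| ≤ (Nat.sqrt (4 * N) : ℤ) := by
      intro a ha
      rw [← Int.natCast_natAbs]
      have h5 : a.natAbs * a.natAbs ≤ 4 * N := by
        have h6 : ((a.natAbs * a.natAbs : ℕ) : ℤ) ≤ ((4 * N : ℕ) : ℤ) := by
          rw [Int.natAbs_mul_self]
          push_cast
          linarith [sq a]
        exact_mod_cast h6
      exact_mod_cast Nat.le_sqrt.2 h5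
    exact ⟨key _ (by linarith), key _ (by linarith [sq_nonneg z.2])⟩

open scoped Classical in
/-- The second elements for a given `w` and a given prime. -/
theorem COP_fib (hFFC : FFC_stmt) (N g : ℕ) (hg : g.Prime) (w : ℤ × ℤ)
    (hw : ¬ ((g : ℤ) ∣ w.1 ∧ (g : ℤ) ∣ w.2)) :
    #{z ∈ ZD N | (g : ℤ) ∣ lc z w} ≤
      (2 * Nat.sqrt (4 * N) / g + 1) * (2 * Nat.sqrt (4 * N) + 1) := by
  obtain ⟨-, hzd⟩ := COP_zd hFFC N
  have hgp : Prime (g : ℤ) := Nat.prime_iff_prime_int.1 hg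
  set m := Nat.sqrt (4 * N) with hm
  have hcard : #(Icc (-(m : ℤ)) m) = 2 * m + 1 := by
    rw [Int.card_Icc]
    omega
  by_cases hv : (g : ℤ) ∣ w.2
  · have hu : ¬ (g : ℤ) ∣ w.1 := fun h => hw ⟨h, hv⟩
    -- the second coordinate is determined by the first one
    rw [← hcard]
    refine Finset.card_le_mul_card_image_of_maps_to (f := Prod.fst) ?_ _ ?_
    · intro z hz
      have h1 := abs_le.1 (hzd z (Finset.mem_filter.1 hz).1).1
      exact Finset.mem_Icc.2 ⟨h1.1, h1.2⟩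
    · intro b _
      have h2 : #{z ∈ {z ∈ ZD N | (g : ℤ) ∣ lc z w} | z.1 = b} =
          #(({z ∈ {z ∈ ZD N | (g : ℤ) ∣ lc z w} | z.1 = b}).image Prod.snd) := by
        rw [Finset.card_image_of_injOn]
        intro z hz z' hz' h
        have h3 := (Finset.mem_filter.1 hz).2
        have h4 := (Finset.mem_filter.1 hz').2
        exact Prod.ext (h3.trans h4.symm) h
      rw [h2]
      refine COP_cls _ g m hg.pos ?_ ?_
      · intro a ha
        obtain ⟨z, hz, rfl⟩ := Finset.mem_image.1 ha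
        exact (hzd z (Finset.mem_filter.1 (Finset.mem_filter.1 hz).1).1).2
      · intro a ha a' ha'
        obtain ⟨z, hz, rfl⟩ := Finset.mem_image.1 ha
        obtain ⟨z', hz', rfl⟩ := Finset.mem_image.1 ha'
        have h3 := (Finset.mem_filter.1 hz).2
        have h4 := (Finset.mem_filter.1 hz').2
        have h5 := (Finset.mem_filter.1 (Finset.mem_filter.1 hz).1).2
        have h6 := (Finset.mem_filter.1 (Finset.mem_filter.1 hz').1).2
        have h7 : (g : ℤ) ∣ (z.2 - z'.2) * w.1 := by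
          have h8 := dvd_sub h5 h6
          have h9 : lc z w - lc z' w = (z.2 - z'.2) * w.1 := by
            unfold lc
            rw [h3, h4]
            ring
          rwa [h9] at h8
        exact (hgp.dvd_or_dvd h7).resolve_right hu
  · rw [← hcard]
    refine Finset.card_le_mul_card_image_of_maps_to (f := Prod.snd) ?_ _ ?_
    · intro z hz
      have h1 := abs_le.1 (hzd z (Finset.mem_filter.1 hz).1).2
      exact Finset.mem_Icc.2 ⟨h1.1, h1.2⟩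
    · intro b _
      have h2 : #{z ∈ {z ∈ ZD N | (g : ℤ) ∣ lc z w} | z.2 = b} =
          #(({z ∈ {z ∈ ZD N | (g : ℤ) ∣ lc z w} | z.2 = b}).image Prod.fst) := by
        rw [Finset.card_image_of_injOn]
        intro z hz z' hz' h
        have h3 := (Finset.mem_filter.1 hz).2
        have h4 := (Finset.mem_filter.1 hz').2
        exact Prod.ext h (h3.trans h4.symm)
      rw [h2]
      refine COP_cls _ g m hg.pos ?_ ?_
      · intro a ha
        obtain ⟨z, hz, rfl⟩ := Finset.mem_image.1 ha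
        exact (hzd z (Finset.mem_filter.1 (Finset.mem_filter.1 hz).1).1).1
      · intro a ha a' ha'
        obtain ⟨z, hz, rfl⟩ := Finset.mem_image.1 ha
        obtain ⟨z', hz', rfl⟩ := Finset.mem_image.1 ha'
        have h3 := (Finset.mem_filter.1 hz).2
        have h4 := (Finset.mem_filter.1 hz').2
        have h5 := (Finset.mem_filter.1 (Finset.mem_filter.1 hz).1).2
        have h6 := (Finset.mem_filter.1 (Finset.mem_filter.1 hz').1).2
        have h7 : (g : ℤ) ∣ (z.1 - z'.1) * w.2 := by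
          have h8 := dvd_sub h5 h6
          have h9 : lc z w - lc z' w = (z.1 - z'.1) * w.2 := by
            unfold lc
            rw [h3, h4]
            ring
          rwa [h9] at h8
        exact (hgp.dvd_or_dvd h7).resolve_right hv

open scoped Classical in
theorem COP_fibr (hFFC : FFC_stmt) (N Z g : ℕ) (hN : 1 ≤ N) (hZ : 1 ≤ Z) (hg : g.Prime)
    (hZg : Z < g) (w : ℤ × ℤ) (hw : ¬ ((g : ℤ) ∣ w.1 ∧ (g : ℤ) ∣ w.2)) :
    (#{z ∈ ZD N | (g : ℤ) ∣ lc z w} : ℝ) ≤ 25 * (N / Z + √N) := by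
  have h1 : (#{z ∈ ZD N | (g : ℤ) ∣ lc z w} : ℝ) ≤
      (((2 * Nat.sqrt (4 * N) / g + 1) * (2 * Nat.sqrt (4 * N) + 1) : ℕ) : ℝ) := by
    exact_mod_cast COP_fib hFFC N g hg w hw
  refine h1.trans ?_
  push_cast
  have hs1 : (1 : ℝ) ≤ √N := by
    rw [Real.one_le_sqrt]
    exact_mod_cast hN
  have hss : √(N : ℝ) * √N = N := Real.mul_self_sqrt (Nat.cast_nonneg N)
  have hm : (Nat.sqrt (4 * N) : ℝ) ≤ 2 * √N := by
    have h2 : (Nat.sqrt (4 * N) : ℝ) ≤ √((4 * N : ℕ) : ℝ) := Real.nat_sqrt_le_real_sqrt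
    have h3 : √((4 * N : ℕ) : ℝ) = 2 * √N := by
      push_cast
      rw [Real.sqrt_mul (by norm_num), show (4 : ℝ) = 2 ^ 2 by norm_num, Real.sqrt_sq (by norm_num)]
    rwa [h3] at h2
  have hm0 : (0 : ℝ) ≤ (Nat.sqrt (4 * N) : ℝ) := Nat.cast_nonneg _
  have hZ0 : (0 : ℝ) < Z := by exact_mod_cast hZ
  have hgZ : (Z : ℝ) ≤ g := by exact_mod_cast hZg.le
  have hd : ((2 * Nat.sqrt (4 * N) / g : ℕ) : ℝ) ≤ 4 * √N / Z := by
    refine (Nat.cast_div_le).trans ?_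
    push_cast
    exact div_le_div₀ (by positivity) (by linarith) hZ0 hgZ
  have hd0 : (0 : ℝ) ≤ ((2 * Nat.sqrt (4 * N) / g : ℕ) : ℝ) := Nat.cast_nonneg _
  calc (((2 * Nat.sqrt (4 * N) / g : ℕ) : ℝ) + 1) * (2 * (Nat.sqrt (4 * N) : ℝ) + 1)
      ≤ (4 * √N / Z + 1) * (5 * √N) := by
        refine mul_le_mul (by linarith) (by linarith) (by linarith) (by positivity)
    _ = 20 * ((√N * √N) / Z) + 5 * √N := by ring
    _ = 20 * (N / Z) + 5 * √N := by rw [hss]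
    _ ≤ 25 * (N / Z + √N) := by
        have : (0 : ℝ) ≤ N / Z := by positivity
        linarith

/-- Number of prime factors. -/
theorem COP_pf (l x : ℕ) (hl : 0 < l) (hlx : l ≤ 2 * x) (hx : 1 ≤ x) :
    (#l.primeFactors : ℝ) ≤ 2 * (1 + Real.log x) := by
  have h1 : 2 ^ #l.primeFactors ≤ l := by
    calc 2 ^ #l.primeFactors = ∏ _p ∈ l.primeFactors, 2 := by rw [Finset.prod_const]
      _ ≤ ∏ p ∈ l.primeFactors, p := Finset.prod_le_prod' fun p hp =>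
        (Nat.prime_of_mem_primeFactors hp).two_le
      _ ≤ l := Nat.le_of_dvd hl (Nat.prod_primeFactors_dvd l)
  have h2 : (2 : ℝ) ^ #l.primeFactors ≤ 2 * x := by exact_mod_cast h1.trans hlx
  have hx' : (0 : ℝ) < x := by exact_mod_cast hx
  have h3 := Real.log_le_log (by positivity) h2
  rw [Real.log_pow, Real.log_mul (by norm_num) hx'.ne'] at h3
  have h4 : (0 : ℝ) ≤ Real.log x := Real.log_nonneg (by exact_mod_cast hx)
  have h5 := Real.log_two_gt_d9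
  have h6 : (0 : ℝ) ≤ #l.primeFactors := Nat.cast_nonneg _
  nlinarith

open scoped Classical in
/-- The elements of a box with both coordinates divisible by `g`. -/
theorem COP_box (R g : ℕ) (hg : 0 < g) :
    (#{w ∈ Bx R | w.1 % 2 = 1 ∧ (g : ℤ) ∣ w.1 ∧ (g : ℤ) ∣ w.2} : ℝ) ≤ 8 * R ^ 2 * ((g : ℝ) ^ 2)⁻¹ := by
  have hg' : (0 : ℤ) < g := by exact_mod_cast hg
  set k := R / g with hk
  have h1 : #{w ∈ Bx R | w.1 % 2 = 1 ∧ (g : ℤ) ∣ w.1 ∧ (g : ℤ) ∣ w.2} ≤ #((Bx k).erase 0) := by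
    have hsub : {w ∈ Bx R | w.1 % 2 = 1 ∧ (g : ℤ) ∣ w.1 ∧ (g : ℤ) ∣ w.2} ⊆
        ((Bx k).erase 0).image (fun b => ((g : ℤ) * b.1, (g : ℤ) * b.2)) := by
      rintro ⟨u, v⟩ hw
      obtain ⟨hB, hodd, ⟨b, hb⟩, ⟨c, hc⟩⟩ := Finset.mem_filter.1 hw
      simp only at hodd hb hc
      subst hb hc
      have hB' := Finset.mem_product.1 hB
      simp only [Finset.mem_Icc] at hB'
      have key : ∀ b : ℤ, -(R : ℤ) ≤ g * b → g * b ≤ R → -(k : ℤ) ≤ b ∧ b ≤ k := by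
        intro b h2 h3
        have hkk : (k : ℤ) = (R : ℤ) / g := by rw [hk]; push_cast; rfl
        constructor
        · have h4 : -b ≤ (R : ℤ) / g := by
            rw [Int.le_ediv_iff_mul_le hg']
            linarith
          linarith
        · rw [hkk, Int.le_ediv_iff_mul_le hg']
          linarith
      obtain ⟨h4, h5⟩ := key b hB'.1.1 hB'.1.2
      obtain ⟨h6, h7⟩ := key c hB'.2.1 hB'.2.2
      refine Finset.mem_image.2 ⟨(b, c), Finset.mem_erase.2 ⟨?_, ?_⟩, rfl⟩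
      · intro h
        have h8 : b = 0 := (Prod.ext_iff.1 h).1
        subst h8
        simp at hodd
      · exact Finset.mem_product.2 ⟨Finset.mem_Icc.2 ⟨h4, h5⟩, Finset.mem_Icc.2 ⟨h6, h7⟩⟩
    exact (Finset.card_le_card hsub).trans Finset.card_image_le
  have h2 : #((Bx k).erase 0) = 4 * k ^ 2 + 4 * k := by
    have h0 : (0 : ℤ × ℤ) ∈ Bx k := by
      refine Finset.mem_product.2 ⟨Finset.mem_Icc.2 ⟨?_, ?_⟩, Finset.mem_Icc.2 ⟨?_, ?_⟩⟩ <;> simp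
    rw [Finset.card_erase_of_mem h0]
    unfold Bx
    rw [Finset.card_product, Int.card_Icc]
    have h3 : ((k : ℤ) + 1 - -(k : ℤ)).toNat = 2 * k + 1 := by omega
    rw [h3]
    have h4 : (2 * k + 1) * (2 * k + 1) = (4 * k ^ 2 + 4 * k) + 1 := by ring
    rw [h4]
    rfl
  have h3 : #((Bx k).erase 0) ≤ 8 * k ^ 2 := by
    rw [h2]
    rcases Nat.eq_zero_or_pos k with h | h
    · rw [h]
      norm_num
    · nlinarith
  have h4 : (#{w ∈ Bx R | w.1 % 2 = 1 ∧ (g : ℤ) ∣ w.1 ∧ (g : ℤ) ∣ w.2} : ℝ) ≤ 8 * (k : ℝ) ^ 2 := by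
    exact_mod_cast h1.trans h3
  have h5 : (k : ℝ) ≤ R / g := Nat.cast_div_le
  have h6 : (k : ℝ) ^ 2 ≤ (R / g) ^ 2 := by
    have : (0 : ℝ) ≤ k := Nat.cast_nonneg _
    nlinarith
  calc (#{w ∈ Bx R | w.1 % 2 = 1 ∧ (g : ℤ) ∣ w.1 ∧ (g : ℤ) ∣ w.2} : ℝ) ≤ 8 * (k : ℝ) ^ 2 := h4
    _ ≤ 8 * (R / g : ℝ) ^ 2 := by linarith
    _ = 8 * R ^ 2 * ((g : ℝ) ^ 2)⁻¹ := by
      rw [div_pow]
      ring

open scoped Classical in
theorem COP_box2 (R Z : ℕ) (hZ : 1 ≤ Z) :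
    (#{w ∈ Bx R | w.1 % 2 = 1 ∧ ∃ g : ℕ, g.Prime ∧ Z < g ∧ (g : ℤ) ∣ w.1 ∧ (g : ℤ) ∣ w.2} : ℝ) ≤
      8 * R ^ 2 * (1 / Z) := by
  have hsub : {w ∈ Bx R | w.1 % 2 = 1 ∧ ∃ g : ℕ, g.Prime ∧ Z < g ∧ (g : ℤ) ∣ w.1 ∧ (g : ℤ) ∣ w.2} ⊆
      (Ioc Z (max Z R)).biUnion
        (fun g => {w ∈ Bx R | w.1 % 2 = 1 ∧ (g : ℤ) ∣ w.1 ∧ (g : ℤ) ∣ w.2}) := by
    intro w hw
    obtain ⟨hB, hodd, g, hg, hZg, h1, h2⟩ := Finset.mem_filter.1 hw
    refine Finset.mem_biUnion.2 ⟨g, Finset.mem_Ioc.2 ⟨hZg, ?_⟩, Finset.mem_filter.2 ⟨hB, hodd, h1, h2⟩⟩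
    have hB' := Finset.mem_Icc.1 (Finset.mem_product.1 hB).1
    have h3 : w.1 ≠ 0 := by
      intro h
      rw [h] at hodd
      simp at hodd
    have h4 : (g : ℤ) ≤ |w.1| := by
      have h5 := Int.le_of_dvd (abs_pos.2 h3) ((dvd_abs _ _).2 h1)
      exact h5
    have h5 : |w.1| ≤ (R : ℤ) := abs_le.2 ⟨hB'.1, hB'.2⟩
    have h6 : (g : ℤ) ≤ R := h4.trans h5
    have h7 : g ≤ R := by exact_mod_cast h6
    exact h7.trans (le_max_right _ _)
  have h1 : (#{w ∈ Bx R | w.1 % 2 = 1 ∧ ∃ g : ℕ, g.Prime ∧ Z < g ∧ (g : ℤ) ∣ w.1 ∧ (g : ℤ) ∣ w.2} : ℝ) ≤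
      ∑ g ∈ Ioc Z (max Z R), (#{w ∈ Bx R | w.1 % 2 = 1 ∧ (g : ℤ) ∣ w.1 ∧ (g : ℤ) ∣ w.2} : ℝ) := by
    exact_mod_cast (Finset.card_le_card hsub).trans Finset.card_biUnion_le
  refine h1.trans ?_
  calc ∑ g ∈ Ioc Z (max Z R), (#{w ∈ Bx R | w.1 % 2 = 1 ∧ (g : ℤ) ∣ w.1 ∧ (g : ℤ) ∣ w.2} : ℝ)
      ≤ ∑ g ∈ Ioc Z (max Z R), 8 * (R : ℝ) ^ 2 * ((g : ℝ) ^ 2)⁻¹ :=
        Finset.sum_le_sum fun g hg => COP_box R g (by
          have := (Finset.mem_Ioc.1 hg).1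
          omega)
    _ = 8 * (R : ℝ) ^ 2 * ∑ g ∈ Ioc Z (max Z R), ((g : ℝ) ^ 2)⁻¹ := by rw [Finset.mul_sum]
    _ ≤ 8 * (R : ℝ) ^ 2 * (1 / Z) := by
        refine mul_le_mul_of_nonneg_left ?_ (by positivity)
        have h2 := sum_Ioc_inv_sq_le_sub (α := ℝ) (k := Z) (n := max Z R) (by omega) (le_max_left _ _)
        have h3 : (0 : ℝ) ≤ ((max Z R : ℕ) : ℝ)⁻¹ := by positivity
        rw [one_div]
        linarith

theorem COP (hFFC : FFC_stmt) : COP_stmt := by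
  classical
  refine ⟨42500, by norm_num, fun N R Z x hN hR hZ hx => ?_⟩
  have hZ0 : (0 : ℝ) < Z := by exact_mod_cast hZ
  have hR1 : (1 : ℝ) ≤ R := by exact_mod_cast hR
  have hN1 : (1 : ℝ) ≤ N := by exact_mod_cast hN
  have hlog : (0 : ℝ) ≤ Real.log x := Real.log_nonneg (by exact_mod_cast hx)
  obtain ⟨hZD, -⟩ := COP_zd hFFC N
  have hBx : ((Bx R).card : ℝ) ≤ 9 * R ^ 2 := by
    have h1 : (Bx R).card = (2 * R + 1) * (2 * R + 1) := by
      unfold Bx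
      rw [Finset.card_product, Int.card_Icc]
      have h3 : ((R : ℤ) + 1 - -(R : ℤ)).toNat = 2 * R + 1 := by omega
      rw [h3]
    rw [h1]
    push_cast
    nlinarith
  set M : ℝ := N / Z + √N with hM
  have hM0 : 0 ≤ M := by positivity
  have hMN : (N : ℝ) / Z ≤ M := by
    rw [hM]
    have := Real.sqrt_nonneg (N : ℝ)
    linarith
  -- the two parts
  set S1 : Finset (((ℤ × ℤ) × (ℤ × ℤ)) × (ℤ × ℤ)) := {t ∈ (ZD N ×ˢ ZD N) ×ˢ Bx R |
    0 < lc t.1.1 t.2 ∧ lc t.1.1 t.2 ≤ 2 * x ∧ ∃ g : ℕ, g.Prime ∧ Z < g ∧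
      (g : ℤ) ∣ lc t.1.1 t.2 ∧ (g : ℤ) ∣ lc t.1.2 t.2 ∧ ¬ ((g : ℤ) ∣ t.2.1 ∧ (g : ℤ) ∣ t.2.2)} with hS1
  set W2 : Finset (ℤ × ℤ) := {w ∈ Bx R | w.1 % 2 = 1 ∧ ∃ g : ℕ, g.Prime ∧ Z < g ∧
    (g : ℤ) ∣ w.1 ∧ (g : ℤ) ∣ w.2} with hW2
  have hsub : {t ∈ (ZD N ×ˢ ZD N) ×ˢ Bx R | t.2.1 % 2 = 1 ∧ 0 < lc t.1.1 t.2 ∧
      lc t.1.1 t.2 ≤ 2 * x ∧ ∃ g : ℕ, g.Prime ∧ Z < g ∧ (g : ℤ) ∣ lc t.1.1 t.2 ∧
      (g : ℤ) ∣ lc t.1.2 t.2} ⊆ S1 ∪ (ZD N ×ˢ ZD N) ×ˢ W2 := by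
    intro t ht
    obtain ⟨h1, h2, h3, h4, g, hg, hZg, h5, h6⟩ := Finset.mem_filter.1 ht
    by_cases h7 : (g : ℤ) ∣ t.2.1 ∧ (g : ℤ) ∣ t.2.2
    · refine Finset.mem_union_right _ (Finset.mem_product.2 ⟨(Finset.mem_product.1 h1).1,
        Finset.mem_filter.2 ⟨(Finset.mem_product.1 h1).2, h2, g, hg, hZg, h7.1, h7.2⟩⟩)
    · exact Finset.mem_union_left _ (Finset.mem_filter.2 ⟨h1, h3, h4, g, hg, hZg, h5, h6, h7⟩)
  have hcard : (#{t ∈ (ZD N ×ˢ ZD N) ×ˢ Bx R | t.2.1 % 2 = 1 ∧ 0 < lc t.1.1 t.2 ∧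
      lc t.1.1 t.2 ≤ 2 * x ∧ ∃ g : ℕ, g.Prime ∧ Z < g ∧ (g : ℤ) ∣ lc t.1.1 t.2 ∧
      (g : ℤ) ∣ lc t.1.2 t.2} : ℝ) ≤ #S1 + #(ZD N) * #(ZD N) * #W2 := by
    have h1 := (Finset.card_le_card hsub).trans (Finset.card_union_le _ _)
    rw [Finset.card_product, Finset.card_product] at h1
    exact_mod_cast h1
  -- the first part
  have hfib : ∀ p ∈ ZD N ×ˢ Bx R, (#{t ∈ S1 | (t.1.1, t.2) = p} : ℝ) ≤
      2 * (1 + Real.log x) * (25 * M) := by
    rintro ⟨z, w⟩ -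
    by_cases hl : 0 < lc z w ∧ lc z w ≤ 2 * x
    swap
    · have h1 : {t ∈ S1 | (t.1.1, t.2) = (z, w)} = ∅ := by
        refine Finset.filter_eq_empty_iff.2 fun t ht h => hl ?_
        have h2 := (Finset.mem_filter.1 ht).2
        have h3 : t.1.1 = z := (Prod.ext_iff.1 h).1
        have h4 : t.2 = w := (Prod.ext_iff.1 h).2
        rw [h3, h4] at h2
        exact ⟨h2.1, h2.2.1⟩
      rw [h1]
      simp only [Finset.card_empty, Nat.cast_zero]
      positivity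
    · set G : Finset ℕ := {g ∈ (lc z w).toNat.primeFactors | Z < g ∧
        ¬ ((g : ℤ) ∣ w.1 ∧ (g : ℤ) ∣ w.2)} with hG
      have h1 : #{t ∈ S1 | (t.1.1, t.2) = (z, w)} ≤
          #(G.biUnion fun g => {z' ∈ ZD N | (g : ℤ) ∣ lc z' w}) := by
        refine Finset.card_le_card_of_injOn (fun t => t.1.2) ?_ ?_
        · intro t ht
          obtain ⟨ht1, h⟩ := Finset.mem_filter.1 ht
          have h3 : t.1.1 = z := (Prod.ext_iff.1 h).1
          have h4 : t.2 = w := (Prod.ext_iff.1 h).2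
          obtain ⟨h5, h6, h7, g, hg, hZg, h8, h9, h10⟩ := Finset.mem_filter.1 ht1
          rw [h3, h4] at h8
          rw [h4] at h9 h10
          refine Finset.mem_coe.2 (Finset.mem_biUnion.2 ⟨g, Finset.mem_filter.2 ⟨?_, hZg, h10⟩,
            Finset.mem_filter.2 ⟨(Finset.mem_product.1 (Finset.mem_product.1 h5).1).2, h9⟩⟩)
          rw [Nat.mem_primeFactors]
          have h11 : ((lc z w).toNat : ℤ) = lc z w := Int.toNat_of_nonneg hl.1.le
          refine ⟨hg, ?_, by omega⟩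
          have h12 : (g : ℤ) ∣ ((lc z w).toNat : ℤ) := by rwa [h11]
          exact_mod_cast h12
        · intro t ht t' ht' h
          have h3 := (Finset.mem_filter.1 ht).2
          have h4 := (Finset.mem_filter.1 ht').2
          have h5 : t.1.1 = t'.1.1 := (Prod.ext_iff.1 h3).1.trans (Prod.ext_iff.1 h4).1.symm
          have h6 : t.2 = t'.2 := (Prod.ext_iff.1 h3).2.trans (Prod.ext_iff.1 h4).2.symm
          exact Prod.ext (Prod.ext h5 h) h6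
      have h2 : (#{t ∈ S1 | (t.1.1, t.2) = (z, w)} : ℝ) ≤
          ∑ g ∈ G, (#{z' ∈ ZD N | (g : ℤ) ∣ lc z' w} : ℝ) := by
        exact_mod_cast h1.trans Finset.card_biUnion_le
      have h3 : ∑ g ∈ G, (#{z' ∈ ZD N | (g : ℤ) ∣ lc z' w} : ℝ) ≤ ∑ _g ∈ G, 25 * M := by
        refine Finset.sum_le_sum fun g hg => ?_
        obtain ⟨h4, h5, h6⟩ := Finset.mem_filter.1 hg
        exact COP_fibr hFFC N Z g hN hZ (Nat.prime_of_mem_primeFactors h4) h5 w h6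
      rw [Finset.sum_const, nsmul_eq_mul] at h3
      have h4 : (#G : ℝ) ≤ 2 * (1 + Real.log x) := by
        have h5 : (#G : ℝ) ≤ (#(lc z w).toNat.primeFactors : ℝ) := by
          exact_mod_cast Finset.card_le_card (Finset.filter_subset _ _)
        exact h5.trans (COP_pf _ x (by omega) (by omega) hx)
      exact h2.trans (h3.trans (mul_le_mul_of_nonneg_right h4 (by positivity)))
  have hS1c : (#S1 : ℝ) ≤ (50 * N * (9 * R ^ 2)) * (2 * (1 + Real.log x) * (25 * M)) := by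
    have h1 : #S1 = ∑ p ∈ ZD N ×ˢ Bx R, #{t ∈ S1 | (t.1.1, t.2) = p} := by
      refine Finset.card_eq_sum_card_fiberwise fun t ht => ?_
      have h2 := Finset.mem_product.1 (Finset.mem_filter.1 ht).1
      exact Finset.mem_product.2 ⟨(Finset.mem_product.1 h2.1).1, h2.2⟩
    rw [h1]
    push_cast
    refine (Finset.sum_le_sum hfib).trans ?_
    rw [Finset.sum_const, nsmul_eq_mul, Finset.card_product]
    push_cast
    refine mul_le_mul_of_nonneg_right ?_ (by positivity)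
    exact mul_le_mul hZD hBx (Nat.cast_nonneg _) (by positivity)
  have hW2c : (#W2 : ℝ) ≤ 8 * R ^ 2 * (1 / Z) := COP_box2 R Z hZ
  have h2 : (#(ZD N) : ℝ) * #(ZD N) * #W2 ≤ (50 * N) * (50 * N) * (8 * R ^ 2 * (1 / Z)) := by
    refine mul_le_mul (mul_le_mul hZD hZD (Nat.cast_nonneg _) (by positivity)) hW2c
      (Nat.cast_nonneg _) (by positivity)
  have h3 : (50 * (N : ℝ)) * (50 * N) * (8 * R ^ 2 * (1 / Z)) = 20000 * (R ^ 2 * N) * (N / Z) := by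
    ring
  have h4 : 20000 * ((R : ℝ) ^ 2 * N) * (N / Z) ≤ 20000 * (1 + Real.log x) * (R ^ 2 * N) * M := by
    have h5 : 20000 * ((R : ℝ) ^ 2 * N) * (N / Z) ≤ 20000 * ((R : ℝ) ^ 2 * N) * M :=
      mul_le_mul_of_nonneg_left hMN (by positivity)
    have h6 : 20000 * ((R : ℝ) ^ 2 * N) * M * 1 ≤ 20000 * ((R : ℝ) ^ 2 * N) * M * (1 + Real.log x) :=
      mul_le_mul_of_nonneg_left (by linarith) (by positivity)
    linarith
  have h5 : (50 * (N : ℝ) * (9 * R ^ 2)) * (2 * (1 + Real.log x) * (25 * M)) =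
      22500 * (1 + Real.log x) * (R ^ 2 * N) * M := by ring
  linarith

end Pool.Agent.FI
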