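import Pool.Agent.helper95.FI.SpecV

/-!
# MP_ad8ced_nt, row fi:LMA: the weight has the Siegel-Walfisz property
-/

set_option autoImplicit false

open Finset

noncomputable section

namespace Pool.Agent.FI

theorem LMA_ev (C : ℝ) (hC : 0 < C) (D : ℕ) : ∃ x₀ : ℕ, ∀ x : ℕ, x₀ ≤ x →
    4 ≤ Real.log x ∧ C * (2 * D * Real.log (Real.log x)) ≤ 2 * Real.log x ∧
      Real.log x ^ (2 * D) < x := by
  have h1 : ∀ᶠ x : ℝ in Filter.atTop, 4 ≤ Real.log x := Real.tendsto_log_atTop.eventually_ge_atTop 4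
  have hc : (0 : ℝ) < 2 / (C * (2 * D) + 1) := by positivity
  have h2 := (Real.isLittleO_log_id_atTop.comp_tendsto Real.tendsto_log_atTop).def hc
  have h3 := (Real.isLittleO_pow_log_id_atTop (n := 2 * D)).def (show (0 : ℝ) < 1 / 2 by norm_num)
  have h4 : ∀ᶠ x : ℕ in Filter.atTop, 4 ≤ Real.log x ∧
      C * (2 * D * Real.log (Real.log x)) ≤ 2 * Real.log x ∧ Real.log x ^ (2 * D) < x := by
    filter_upwards [tendsto_natCast_atTop_atTop.eventually h1,
      tendsto_natCast_atTop_atTop.eventually h2, tendsto_natCast_atTop_atTop.eventually h3,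
      Filter.eventually_gt_atTop 0] with x h5 h6 h7 h8
    have hx : (0 : ℝ) < x := by exact_mod_cast h8
    refine ⟨h5, ?_, ?_⟩
    · have h9 : ‖Real.log (Real.log x)‖ ≤ 2 / (C * (2 * D) + 1) * ‖Real.log x‖ := h6
      rw [Real.norm_eq_abs, Real.norm_eq_abs, abs_of_nonneg (show (0 : ℝ) ≤ Real.log x by linarith)] at h9
      have h10 := (le_abs_self _).trans h9
      have h11 : C * (2 * D) * Real.log (Real.log x) ≤
          C * (2 * D) * (2 / (C * (2 * D) + 1) * Real.log x) :=
        mul_le_mul_of_nonneg_left h10 (by positivity)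
      have h12 : C * (2 * D) * (2 / (C * (2 * D) + 1) * Real.log x) ≤ 2 * Real.log x := by
        have h13 : C * (2 * D) * (2 / (C * (2 * D) + 1) * Real.log x) =
            (C * (2 * D) / (C * (2 * D) + 1)) * (2 * Real.log x) := by ring
        rw [h13]
        have h14 : C * (2 * D) / (C * (2 * D) + 1) ≤ 1 := by
          rw [div_le_one (by positivity)]
          linarith
        nlinarith
      linarith
    · have h9 : ‖Real.log (x : ℝ) ^ (2 * D)‖ ≤ 1 / 2 * ‖(x : ℝ)‖ := h7
      rw [Real.norm_eq_abs, Real.norm_eq_abs, abs_of_pos hx] at h9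
      have h10 := (le_abs_self _).trans h9
      linarith
  obtain ⟨x₀, hx₀⟩ := Filter.eventually_atTop.1 h4
  exact ⟨x₀, fun x hx => hx₀ x hx⟩

theorem LMA_split (f : ℤ → ℝ) (q : ℕ) (c : ℤ) (x u : ℕ) (hxu : x ≤ u) :
    ∑ l ∈ Ioc (0 : ℤ) u with (q : ℤ) ∣ l - c, f l =
      ∑ l ∈ Ioc (0 : ℤ) x with (q : ℤ) ∣ l - c, f l +
      ∑ l ∈ Ioc (x : ℤ) u with (q : ℤ) ∣ l - c, f l := by
  have hxu' : (x : ℤ) ≤ u := by exact_mod_cast hxu
  rw [← Finset.Ioc_union_Ioc_eq_Ioc (show (0 : ℤ) ≤ x by omega) hxu', Finset.filter_union,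
    Finset.sum_union]
  refine Finset.disjoint_filter_filter ?_
  rw [Finset.disjoint_left]
  intro a ha hb
  have h1 := (Finset.mem_Ioc.1 ha).2
  have h2 := (Finset.mem_Ioc.1 hb).1
  omega

theorem LMA (hNUS : NUS_stmt) (hTHS : THS_stmt) (hKAP : KAP_stmt) : LMA_stmt := by
  intro E C₅ hE
  obtain ⟨C, hC, hkap⟩ := hKAP
  obtain ⟨x₁, h₁⟩ := hNUS (E + 1) C₅
  obtain ⟨x₂, h₂⟩ := hTHS (E + 1) E
  obtain ⟨x₃, h₃⟩ := LMA_ev C hC C₅
  refine ⟨max x₁ (max x₂ x₃), fun x hx r hr1 hr2 => ?_⟩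
  have hx1 : x₁ ≤ x := (le_max_left _ _).trans hx
  have hx2 : x₂ ≤ x := (le_max_left _ _).trans ((le_max_right _ _).trans hx)
  have hx3 : x₃ ≤ x := (le_max_right _ _).trans ((le_max_right _ _).trans hx)
  obtain ⟨hL4, hLL, hLx⟩ := h₃ x hx3
  have hL1 : 1 ≤ Real.log x := by linarith
  have hx0 : (0 : ℝ) < x := by
    rcases Nat.eq_zero_or_pos x with h | h
    · rw [h] at hL4
      norm_num at hL4
    · exact_mod_cast h
  have hxnat : 0 < x := by exact_mod_cast hx0
  have hZx : Zr r < x := by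
    have h4 : (Zr r : ℝ) < x := hr2.trans_lt hLx
    exact_mod_cast h4
  have hZpos : (0 : ℝ) < Zr r := by
    unfold Zr
    push_cast
    positivity
  have hk1 : 1 ≤ kap r := (hkap r).1
  have hk2 : kap r ≤ 2 * Real.log x := by
    refine (hkap r).2.trans (le_trans ?_ hLL)
    refine mul_le_mul_of_nonneg_left ?_ hC.le
    have h4 := Real.log_le_log hZpos hr2
    rw [Real.log_pow] at h4
    push_cast at h4
    exact h4
  have hx2' : (2 : ℝ) ≤ x := by
    have h4 := Real.log_le_sub_one_of_pos hx0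
    linarith
  have hnu : ∀ l, 0 ≤ nu r l ∧ nu r l ≤ kap r := by
    intro l
    unfold nu
    split_ifs
    · exact ⟨by linarith, le_rfl⟩
    · exact ⟨le_rfl, by linarith⟩
  have hprime : ∀ l : ℤ, (x : ℤ) < l → l.toNat.Prime → ∀ g : ℕ, g.Prime → g ≤ x → ¬ (g : ℤ) ∣ l := by
    intro l hl hp g hg hgx hd
    have h4 : ((l.toNat : ℕ) : ℤ) = l := Int.toNat_of_nonneg (by omega)
    rw [← h4] at hd
    have h5 : g ∣ l.toNat := by exact_mod_cast hd
    have h6 := (Nat.prime_dvd_prime_iff_eq hg hp).1 h5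
    omega
  refine ⟨⟨fun l => ?_, fun l hl => ?_⟩, ?_⟩
  · unfold lam
    split_ifs with h
    · obtain ⟨h4, h5⟩ := hnu l
      have h6 : 0 ≤ th l ∧ th l ≤ 2 * Real.log x := by
        unfold th
        split_ifs
        · have h7 : (1 : ℝ) ≤ l := by
            have : (1 : ℤ) ≤ l := by omega
            exact_mod_cast this
          refine ⟨Real.log_nonneg h7, ?_⟩
          have h8 : (l : ℝ) ≤ x ^ 2 := by
            have h9 : (l : ℝ) ≤ 2 * x := by exact_mod_cast h.2
            nlinarith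
          have h9 := Real.log_le_log (by linarith) h8
          rw [Real.log_pow] at h9
          push_cast at h9
          exact h9
        · exact ⟨le_rfl, by linarith⟩
      rw [abs_le]
      constructor <;> linarith [h6.1, h6.2]
    · rw [abs_zero]
      linarith
  · unfold lam at hl
    split_ifs at hl with h
    swap
    · exact absurd rfl hl
    refine ⟨h.1, h.2, fun g hg hgZ => ?_⟩
    by_cases hp : l.toNat.Prime
    · exact hprime l h.1 hp g hg (hgZ.trans hZx.le)
    · have h4 : th l = 0 := if_neg hp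
      by_contra hd
      have h5 : nu r l = 0 := if_neg fun hr => hr g hg hgZ hd
      rw [h4, h5, sub_zero] at hl
      exact hl rfl
  · intro q hq hqE c u hxu hu2
    have hqZ : q ≤ Zr r := by
      have h4 : (q : ℝ) ≤ Zr r :=
        hqE.trans ((pow_le_pow_right₀ hL1 hE).trans hr1)
      exact_mod_cast h4
    have hsum : ∑ l ∈ Ioc (x : ℤ) u with (q : ℤ) ∣ l - c, lam x r l =
        ∑ l ∈ Ioc (x : ℤ) u with (q : ℤ) ∣ l - c, th l -
        ∑ l ∈ Ioc (x : ℤ) u with (q : ℤ) ∣ l - c, nu r l := by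
      rw [← Finset.sum_sub_distrib]
      refine Finset.sum_congr rfl fun l hl => ?_
      have h4 := Finset.mem_Ioc.1 (Finset.mem_filter.1 hl).1
      unfold lam
      rw [if_pos ⟨h4.1, by omega⟩]
    rw [hsum]
    by_cases hco : IsCoprime c (q : ℤ)
    · have a1 := (h₁ x hx1 r hr2 q hq hqZ c u hu2).1 hco
      have a2 := (h₁ x hx1 r hr2 q hq hqZ c x (by omega)).1 hco
      have a3 := h₂ x hx2 q hq hqE c u hco hu2
      have a4 := h₂ x hx2 q hq hqE c x hco (by omega)
      have s1 := LMA_split (nu r) q c x u hxu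
      have s2 := LMA_split th q c x u hxu
      have h5 : (x : ℝ) / Real.log x ^ (E + 1) ≤ x / Real.log x ^ E / 4 := by
        rw [pow_succ, ← div_div]
        exact div_le_div_of_nonneg_left (by positivity) (by norm_num) hL4
      rw [abs_le] at a1 a2 a3 a4 ⊢
      constructor <;> linarith [a1.1, a1.2, a2.1, a2.2, a3.1, a3.2, a4.1, a4.2]
    · have a1 := (h₁ x hx1 r hr2 q hq hqZ c u hu2).2 hco
      have a2 := (h₁ x hx1 r hr2 q hq hqZ c x (by omega)).2 hco
      have s1 := LMA_split (nu r) q c x u hxu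
      have h4 : ∑ l ∈ Ioc (x : ℤ) u with (q : ℤ) ∣ l - c, th l = 0 := by
        refine Finset.sum_eq_zero fun l hl => ?_
        obtain ⟨h5, h6⟩ := Finset.mem_filter.1 hl
        have h7 := Finset.mem_Ioc.1 h5
        refine if_neg fun hp => hco ?_
        rw [Int.isCoprime_iff_gcd_eq_one]
        by_contra hg
        obtain ⟨g, hgp, hgd⟩ := Nat.exists_prime_and_dvd hg
        have h8 : (g : ℤ) ∣ c := (Int.natCast_dvd_natCast.2 hgd).trans (Int.gcd_dvd_left _ _)
        have h9 : (g : ℤ) ∣ q := (Int.natCast_dvd_natCast.2 hgd).trans (Int.gcd_dvd_right _ _)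
        have h10 : (g : ℤ) ∣ l := by
          have h11 := dvd_add (h9.trans h6) h8
          rwa [sub_add_cancel] at h11
        have h11 : g ≤ q := Nat.le_of_dvd hq (by exact_mod_cast h9)
        exact hprime l h7.1 hp g hgp (h11.trans (hqZ.trans hZx.le)) h10
      have h5 : ∑ l ∈ Ioc (x : ℤ) u with (q : ℤ) ∣ l - c, nu r l = 0 := by linarith
      rw [h4, h5, sub_zero, abs_zero]
      positivity

end Pool.Agent.FI
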